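import Pool.Agent.P8H98.DF.Stm3

/-!
# Project DF: asymptotic forms with general normalisations inside one parity class
-/

set_option autoImplicit false

namespace Pool.Agent.P8H7.DF

open Filter Topology
open Pool.Agent.R956.K1
open Pool.Agent.Y943.SL (Wk)
open Pool.Agent.P8H98.DF

lemma step2 {g : ℕ → ℝ} {A₁ : ℝ} (hA : 0 ≤ A₁)
    (h : ∀ n : ℕ, 1 ≤ n → |Real.log (g (n + 1)) - Real.log (g n)| ≤ A₁ / n) {n : ℕ} (hn : 1 ≤ n) :
    |Real.log (g (n + 2)) - Real.log (g n)| ≤ 2 * A₁ / n := by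
  have h1 := h n hn
  have h2 := h (n + 1) (by omega)
  have h3 : A₁ / ((n + 1 : ℕ) : ℝ) ≤ A₁ / n := by
    apply div_le_div_of_nonneg_left hA (by exact_mod_cast hn)
    exact_mod_cast Nat.le_succ n
  rw [show n + 1 + 1 = n + 2 by ring] at h2
  have h4 := abs_sub_le (Real.log (g (n + 2))) (Real.log (g (n + 1))) (Real.log (g n))
  have h5 : 2 * A₁ / (n : ℝ) = A₁ / n + A₁ / n := by ring
  linarith

lemma exp_le_lin {x : ℝ} (hx : 0 ≤ x) : Real.exp x ≤ 1 + x * Real.exp x := by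
  have h1 := Real.add_one_le_exp (-x)
  have h2 := Real.exp_pos x
  have h3 : Real.exp x * Real.exp (-x) = 1 := by rw [← Real.exp_add]; simp
  nlinarith

theorem kc_g {c : ℕ → ℝ} {μ : ℝ} (W : Wk c μ) {g : ℕ → ℝ} {A₁ : ℝ} (hA : 0 ≤ A₁)
    (hg : ∀ n, 0 < g n)
    (h : ∀ n : ℕ, 1 ≤ n → |Real.log (g (n + 1)) - Real.log (g n)| ≤ A₁ / n) {q : ℕ} (hq : q ≤ 1) :
    ∃ D, Kc (fun k => c (2 * k + q) / μ ^ (2 * k + q) / g (2 * k + q)) D := by
  obtain ⟨D, hD, hk⟩ := W.kes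
  obtain ⟨k0, hk⟩ := hk q hq
  obtain ⟨E, hE⟩ : ∃ E : ℝ, E = 2 * A₁ * Real.exp (2 * A₁) := ⟨_, rfl⟩
  have hE0 : 0 ≤ E := by rw [hE]; positivity
  refine ⟨D + E + D * E, fun k => (div_pos (W.pos _) (hg _)).le,
    Eventually.of_forall fun k => div_pos (W.pos _) (hg _), by positivity, ?_⟩
  filter_upwards [eventually_ge_atTop k0, eventually_ge_atTop 1] with k hk0 hk1
  have hkk : (0 : ℝ) < k := by exact_mod_cast hk1
  have h1 := hk k hk0 (le_trans (pow_le_one₀ (by norm_num) (by norm_num)) (W.one_le _))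
  simp only at h1
  have half : ∀ n : ℕ, 2 * k ≤ n → 2 * A₁ / (n : ℝ) ≤ A₁ / k := by
    intro n hn
    have hn0 : (0 : ℝ) < n := by exact_mod_cast (show 0 < n by omega)
    rw [div_le_div_iff₀ hn0 hkk]
    have h5 : (2 * k : ℝ) ≤ n := by exact_mod_cast hn
    nlinarith
  have s1 := (step2 hA h (n := 2 * k + q) (by omega)).trans (half _ (by omega))
  have s2 := (step2 hA h (n := 2 * (k + 1) + q) (by omega)).trans (half _ (by omega))
  rw [show 2 * k + q + 2 = 2 * (k + 1) + q by ring] at s1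
  rw [show 2 * (k + 1) + q + 2 = 2 * (k + 2) + q by ring] at s2
  have p0 := hg (2 * k + q)
  have p1 := hg (2 * (k + 1) + q)
  have p2 := hg (2 * (k + 2) + q)
  have x0 := W.pos (2 * k + q)
  have x2 := W.pos (2 * (k + 2) + q)
  obtain ⟨G0, e0⟩ : ∃ G0, G0 = g (2 * k + q) := ⟨_, rfl⟩
  obtain ⟨G1, e1⟩ : ∃ G1, G1 = g (2 * (k + 1) + q) := ⟨_, rfl⟩
  obtain ⟨G2, e2⟩ : ∃ G2, G2 = g (2 * (k + 2) + q) := ⟨_, rfl⟩
  obtain ⟨X0, f0⟩ : ∃ X0, X0 = c (2 * k + q) / μ ^ (2 * k + q) := ⟨_, rfl⟩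
  obtain ⟨X1, f1⟩ : ∃ X1, X1 = c (2 * (k + 1) + q) / μ ^ (2 * (k + 1) + q) := ⟨_, rfl⟩
  obtain ⟨X2, f2⟩ : ∃ X2, X2 = c (2 * (k + 2) + q) / μ ^ (2 * (k + 2) + q) := ⟨_, rfl⟩
  rw [← f0, ← f1, ← f2] at h1
  rw [← e0, ← e1] at s1
  rw [← e1, ← e2] at s2
  rw [← e0] at p0
  rw [← e1] at p1
  rw [← e2] at p2
  rw [← f0] at x0
  rw [← f2] at x2
  rw [← e0, ← e1, ← e2, ← f0, ← f1, ← f2]
  have h2 : G0 * G2 ≤ G1 ^ 2 * Real.exp (2 * A₁ / k) := by
    rw [← Real.log_le_log_iff (by positivity) (by positivity), Real.log_mul p0.ne' p2.ne',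
      Real.log_mul (by positivity) (Real.exp_pos _).ne', Real.log_pow, Real.log_exp]
    have a1 := (abs_le.1 s1).1
    have a2 := (abs_le.1 s2).2
    have a3 : 2 * A₁ / (k : ℝ) = A₁ / k + A₁ / k := by ring
    push_cast
    linarith
  have h3 : Real.exp (2 * A₁ / k) ≤ 1 + E / k := by
    refine (exp_le_lin (by positivity)).trans ?_
    have a1 : 2 * A₁ / (k : ℝ) ≤ 2 * A₁ :=
      div_le_self (by positivity) (by exact_mod_cast hk1)
    have a2 := Real.exp_le_exp.2 a1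
    have a3 : 2 * A₁ / (k : ℝ) * Real.exp (2 * A₁ / k) ≤ 2 * A₁ / k * Real.exp (2 * A₁) :=
      mul_le_mul_of_nonneg_left a2 (by positivity)
    have a4 : 2 * A₁ / (k : ℝ) * Real.exp (2 * A₁) = E / k := by rw [hE]; ring
    linarith
  have h4 : (1 + D / k) * (1 + E / k) ≤ 1 + (D + E + D * E) / k := by
    have a1 : D * E / (k : ℝ) / k ≤ D * E / k :=
      div_le_self (by positivity) (by exact_mod_cast hk1)
    have a2 : (1 + D / k) * (1 + E / k) = 1 + D / k + E / k + D * E / (k : ℝ) / k := by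
      ring
    have a3 : (D + E + D * E) / (k : ℝ) = D / k + E / k + D * E / k := by ring
    linarith
  rw [div_pow, div_mul_div_comm, div_mul_eq_mul_div, div_le_div_iff₀ (by positivity) (by positivity)]
  have hX : 0 ≤ X0 * X2 := by positivity
  have hDk : 0 ≤ 1 + D / k := by positivity
  calc X1 ^ 2 * (G0 * G2) ≤ (X0 * X2 * (1 + D / k)) * (G1 ^ 2 * (1 + E / k)) := by
        apply mul_le_mul h1 (h2.trans (mul_le_mul_of_nonneg_left h3 (by positivity)))
          (by positivity) (by positivity)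
    _ = X0 * X2 * ((1 + D / k) * (1 + E / k)) * G1 ^ 2 := by ring
    _ ≤ X0 * X2 * (1 + (D + E + D * E) / k) * G1 ^ 2 := by gcongr

lemma par_iff {α : Type*} {g : ℕ → α} {l : Filter α} {p : ℕ} (hp : p ≤ 1) :
    Tendsto g (atTop ⊓ 𝓟 {n | n % 2 = p}) l ↔ Tendsto (fun k => g (2 * k + p)) atTop l := by
  constructor
  · intro h
    refine h.comp (tendsto_inf.mpr ⟨?_, ?_⟩)
    · exact tendsto_atTop_mono (fun k => by simp only [id]; omega) tendsto_id
    · rw [tendsto_principal]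
      exact Eventually.of_forall fun k => by simp only [Set.mem_setOf_eq]; omega
  · intro h U hU
    have h1 := h hU
    rw [mem_map, mem_atTop_sets] at h1
    obtain ⟨N, hN⟩ := h1
    rw [mem_map, mem_inf_principal, mem_atTop_sets]
    refine ⟨2 * N + p, fun n hn => ?_⟩
    simp only [Set.mem_setOf_eq, Set.mem_preimage]
    intro hnp
    have h2 := hN (n / 2) (by omega)
    simp only [Set.mem_preimage] at h2
    rwa [show 2 * (n / 2) + p = n by omega] at h2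

/-- **an asymptotic form along gaps `o(√n)` inside one parity class** -/
theorem form_g {c : ℕ → ℝ} {μ : ℝ} (W : Wk c μ) {g : ℕ → ℝ} {A₁ : ℝ} (hA₁ : 0 ≤ A₁)
    (hg : ∀ n, 0 < g n)
    (hgl : ∀ n : ℕ, 1 ≤ n → |Real.log (g (n + 1)) - Real.log (g n)| ≤ A₁ / n) {p : ℕ} (hp : p ≤ 1)
    {S : Set ℕ} (hpar : ∀ m ∈ S, m % 2 = p)
    (hS : ∀ δ : ℝ, 0 < δ → ∀ᶠ n : ℕ in atTop, ∃ m ∈ S, n ≤ m ∧ (m : ℝ) ≤ n + δ * Real.sqrt n)
    {A : ℝ} (hA : 0 < A)
    (h : Tendsto (fun n : ℕ => c n / μ ^ n / g n) (atTop ⊓ 𝓟 S) (𝓝 A)) :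
    Tendsto (fun n : ℕ => c n / μ ^ n / g n) (atTop ⊓ 𝓟 {n | n % 2 = p}) (𝓝 A) := by
  obtain ⟨D, K⟩ := kc_g W hA₁ hg hgl hp
  have ht : Tendsto (fun k : ℕ => 2 * k + p) atTop atTop :=
    tendsto_atTop_mono (fun k => by simp only [id]; omega) tendsto_id
  have h1 := K.form (S := {k | 2 * k + p ∈ S}) (a := 0) (A := A) (fun δ hδ => by
    filter_upwards [ht.eventually (hS δ hδ), eventually_ge_atTop 1] with k hk hk1
    obtain ⟨m, hmS, hm2, hm3⟩ := hk
    have hmp := hpar m hmS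
    obtain ⟨j, hj⟩ : ∃ j, m = 2 * j + p := ⟨m / 2, by omega⟩
    subst hj
    refine ⟨j, hmS, by omega, ?_⟩
    have h5 : √((2 * k + p : ℕ) : ℝ) ≤ 2 * √(k : ℝ) := by
      rw [show (2 : ℝ) * √(k : ℝ) = √(4 * k) by
        rw [Real.sqrt_mul (by norm_num), show (4 : ℝ) = 2 ^ 2 by norm_num,
          Real.sqrt_sq (by norm_num)]]
      refine Real.sqrt_le_sqrt ?_
      exact_mod_cast (show 2 * k + p ≤ 4 * k by omega)
    have h6 := mul_le_mul_of_nonneg_left h5 hδ.le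
    push_cast at hm3 h6 ⊢
    linarith) hA (by
    have g1 : Tendsto (fun k : ℕ => 2 * k + p) (atTop ⊓ 𝓟 {k | 2 * k + p ∈ S}) (atTop ⊓ 𝓟 S) := by
      refine tendsto_inf.mpr ⟨ht.mono_left inf_le_left, ?_⟩
      rw [tendsto_principal, eventually_inf_principal]
      exact Eventually.of_forall fun k hk => hk
    refine (h.comp g1).congr fun k => ?_
    rw [Real.rpow_zero, div_one]
    rfl)
  rw [par_iff hp]
  refine h1.congr fun k => ?_
  rw [Real.rpow_zero, div_one]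

/-- the ratios -/
theorem ratio_g {c : ℕ → ℝ} {μ : ℝ} (W : Wk c μ) {g : ℕ → ℝ} {A₁ : ℝ} (hA₁ : 0 ≤ A₁)
    (hg : ∀ n, 0 < g n)
    (hgl : ∀ n : ℕ, 1 ≤ n → |Real.log (g (n + 1)) - Real.log (g n)| ≤ A₁ / n) {p : ℕ} (hp : p ≤ 1)
    {A : ℝ} (hA : 0 < A)
    (h : Tendsto (fun n : ℕ => c n / μ ^ n / g n) (atTop ⊓ 𝓟 {n | n % 2 = p}) (𝓝 A)) :
    Tendsto (fun k : ℕ => (c (2 * (k + 1) + p) / μ ^ (2 * (k + 1) + p) / g (2 * (k + 1) + p) /
      (c (2 * k + p) / μ ^ (2 * k + p) / g (2 * k + p)) - 1) * √(k : ℝ)) atTop (𝓝 0) := by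
  obtain ⟨D, K⟩ := kc_g W hA₁ hg hgl hp
  rw [par_iff hp] at h
  exact K.ratio_form (a := 0) hA (by
    refine h.congr fun k => ?_
    rw [Real.rpow_zero, div_one])

lemma sqrt_inv_tend : Tendsto (fun k : ℕ => (1 : ℝ) / k * √(k : ℝ)) atTop (𝓝 0) := by
  have h1 : Tendsto (fun k : ℕ => (√(k : ℝ))⁻¹) atTop (𝓝 0) :=
    (Real.tendsto_sqrt_atTop.comp tendsto_natCast_atTop_atTop).inv_tendsto_atTop
  refine h1.congr' ?_
  filter_upwards [eventually_ge_atTop 1] with k hk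
  have hk0 : (0 : ℝ) < k := by exact_mod_cast hk
  have hs : 0 < √(k : ℝ) := Real.sqrt_pos.2 hk0
  have e : (k : ℝ) = √(k : ℝ) * √(k : ℝ) := (Real.mul_self_sqrt hk0.le).symm
  rw [div_mul_eq_mul_div, one_mul]
  conv_rhs => rw [e]
  rw [Real.sqrt_mul_self hs.le]
  field_simp

/-- the ratios of the normalisation -/
lemma norm_ratio {g : ℕ → ℝ} {A₁ : ℝ} (hA₁ : 0 ≤ A₁) (hg : ∀ n, 0 < g n)
    (hgl : ∀ n : ℕ, 1 ≤ n → |Real.log (g (n + 1)) - Real.log (g n)| ≤ A₁ / n) (p : ℕ) :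
    Tendsto (fun k : ℕ => (g (2 * (k + 1) + p) / g (2 * k + p) - 1) * √(k : ℝ)) atTop (𝓝 0) ∧
    Tendsto (fun k : ℕ => g (2 * (k + 1) + p) / g (2 * k + p) - 1) atTop (𝓝 0) := by
  have key : ∀ᶠ k : ℕ in atTop, |g (2 * (k + 1) + p) / g (2 * k + p) - 1| ≤
      2 * A₁ * (1 / k) := by
    filter_upwards [eventually_ge_atTop 1, eventually_ge_atTop ⌈A₁⌉₊] with k hk hk2
    have hk0 : (0 : ℝ) < k := by exact_mod_cast hk
    have hkA : A₁ ≤ k := (Nat.le_ceil _).trans (by exact_mod_cast hk2)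
    have s := step2 hA₁ hgl (n := 2 * k + p) (by omega)
    rw [show 2 * k + p + 2 = 2 * (k + 1) + p by ring] at s
    have s' : |Real.log (g (2 * (k + 1) + p)) - Real.log (g (2 * k + p))| ≤ A₁ * (1 / k) := by
      refine s.trans ?_
      have hn0 : (0 : ℝ) < ((2 * k + p : ℕ) : ℝ) := by exact_mod_cast (show 0 < 2 * k + p by omega)
      rw [mul_one_div, div_le_div_iff₀ hn0 hk0]
      have h5 : (2 * k : ℝ) ≤ ((2 * k + p : ℕ) : ℝ) := by exact_mod_cast (show 2 * k ≤ 2 * k + p by omega)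
      nlinarith
    have e : g (2 * (k + 1) + p) / g (2 * k + p) =
        Real.exp (Real.log (g (2 * (k + 1) + p)) - Real.log (g (2 * k + p))) := by
      rw [Real.exp_sub, Real.exp_log (hg _), Real.exp_log (hg _)]
    have h1 : A₁ * (1 / k) ≤ 1 := by
      rw [mul_one_div, div_le_one hk0]
      exact hkA
    rw [e]
    refine (exp_sub_one_le (s'.trans h1)).trans ?_
    linarith
  have hz : Tendsto (fun k : ℕ => (1 : ℝ) / k) atTop (𝓝 0) := tendsto_const_div_atTop_nhds_zero_nat 1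
  constructor
  · have h1 := sqrt_inv_tend.const_mul (2 * A₁)
    rw [mul_zero] at h1
    refine squeeze_zero_norm' ?_ h1
    filter_upwards [key] with k hk
    rw [norm_mul, Real.norm_eq_abs, Real.norm_of_nonneg (Real.sqrt_nonneg _), ← mul_assoc]
    exact mul_le_mul_of_nonneg_right hk (Real.sqrt_nonneg _)
  · have h1 := hz.const_mul (2 * A₁)
    rw [mul_zero] at h1
    exact squeeze_zero_norm' key h1

/-- **GFM** -/
theorem gfm : S_GFM := by
  intro c w M g h μ A₁ C W hM hg hh hgl hhl q S A B hq hpar hS hA hB t1 t2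
  have hA₁ : 0 ≤ A₁ := by
    have := (abs_nonneg _).trans (hgl 1 le_rfl)
    simpa using this
  have hμ := C.hμ
  have g1 := form_g C hA₁ hh hhl hq hpar hS hA t1
  -- the product
  have hhg : ∀ n, 0 < h n * g n := fun n => mul_pos (hh n) (hg n)
  have hhgl : ∀ n : ℕ, 1 ≤ n → |Real.log (h (n + 1) * g (n + 1)) - Real.log (h n * g n)| ≤
      2 * A₁ / n := by
    intro n hn
    rw [Real.log_mul (hh _).ne' (hg _).ne', Real.log_mul (hh _).ne' (hg _).ne']
    have a1 := hgl n hn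
    have a2 := hhl n hn
    have a3 : 2 * A₁ / (n : ℝ) = A₁ / n + A₁ / n := by ring
    rw [abs_le] at a1 a2 ⊢
    constructor <;> linarith [a1.1, a1.2, a2.1, a2.2]
  have hle : ∀ T : Set ℕ, (atTop : Filter ℕ) ⊓ 𝓟 T ≤ atTop := fun T => inf_le_left
  have pe : ∀ᶠ n : ℕ in atTop, w n / μ ^ n / (h n * g n) = c n / μ ^ n / h n * (M n / g n) := by
    filter_upwards [hM] with n hn
    rw [hn]
    have b1 := (C.cpos n).ne'
    have b2 := (hh n).ne'
    have b3 := (hg n).ne'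
    have b4 := (pow_pos hμ n).ne'
    field_simp
  have h3 : Tendsto (fun n : ℕ => w n / μ ^ n / (h n * g n)) (atTop ⊓ 𝓟 S) (𝓝 (A * B)) := by
    refine (t1.mul t2).congr' ?_
    filter_upwards [pe.filter_mono (hle S)] with n hn
    exact hn.symm
  have hAB : 0 < A * B := mul_pos hA hB
  have g3 := form_g W (by positivity : (0 : ℝ) ≤ 2 * A₁) hhg hhgl hq hpar hS hAB h3
  refine ⟨g1, ?_, ?_⟩
  · have h4 := g3.div g1 hA.ne'
    rw [mul_div_cancel_left₀ _ hA.ne'] at h4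
    refine h4.congr' ?_
    filter_upwards [pe.filter_mono (hle {n | n % 2 = q})] with n hn
    show w n / μ ^ n / (h n * g n) / (c n / μ ^ n / h n) = _
    rw [hn, mul_div_cancel_left₀]
    exact (div_pos (C.pos n) (hh n)).ne'
  · have r1 := ratio_g C hA₁ hh hhl hq hA g1
    have r2 := ratio_g W (by positivity : (0 : ℝ) ≤ 2 * A₁) hhg hhgl hq hAB g3
    obtain ⟨n1, n2⟩ := norm_ratio hA₁ hg hgl q
    obtain ⟨a, ha⟩ : ∃ a : ℕ → ℝ, a = fun k => w (2 * (k + 1) + q) / μ ^ (2 * (k + 1) + q) /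
      (h (2 * (k + 1) + q) * g (2 * (k + 1) + q)) /
      (w (2 * k + q) / μ ^ (2 * k + q) / (h (2 * k + q) * g (2 * k + q))) - 1 := ⟨_, rfl⟩
    obtain ⟨b, hb⟩ : ∃ b : ℕ → ℝ, b = fun k => c (2 * (k + 1) + q) / μ ^ (2 * (k + 1) + q) /
      h (2 * (k + 1) + q) / (c (2 * k + q) / μ ^ (2 * k + q) / h (2 * k + q)) - 1 := ⟨_, rfl⟩
    obtain ⟨e, he⟩ : ∃ e : ℕ → ℝ, e = fun k => g (2 * (k + 1) + q) / g (2 * k + q) - 1 := ⟨_, rfl⟩
    have ra : Tendsto (fun k : ℕ => a k * √(k : ℝ)) atTop (𝓝 0) := by rw [ha]; exact r2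
    have rb : Tendsto (fun k : ℕ => b k * √(k : ℝ)) atTop (𝓝 0) := by rw [hb]; exact r1
    have re : Tendsto (fun k : ℕ => e k * √(k : ℝ)) atTop (𝓝 0) := by rw [he]; exact n1
    have re0 : Tendsto e atTop (𝓝 0) := by rw [he]; exact n2
    have rb0 : Tendsto b atTop (𝓝 0) := by
      refine squeeze_zero_norm' ?_ (tendsto_zero_iff_norm_tendsto_zero.mp rb)
      filter_upwards [eventually_ge_atTop 1] with k hk
      have hs : (1 : ℝ) ≤ √(k : ℝ) := by
        rw [Real.one_le_sqrt]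
        exact_mod_cast hk
      rw [norm_mul, Real.norm_of_nonneg (Real.sqrt_nonneg _)]
      exact le_mul_of_one_le_right (norm_nonneg _) hs
    have rt : Tendsto (fun k : ℕ => (a k * √(k : ℝ) + e k * √(k : ℝ) + (a k * √(k : ℝ)) * e k -
        b k * √(k : ℝ)) / (1 + b k)) atTop (𝓝 0) := by
      have t3 : Tendsto (fun k : ℕ => (a k * √(k : ℝ) + e k * √(k : ℝ) + (a k * √(k : ℝ)) * e k -
        b k * √(k : ℝ)) / (1 + b k)) atTop (𝓝 ((0 + 0 + 0 * 0 - 0) / (1 + 0))) :=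
        (((ra.add re).add (ra.mul re0)).sub rb).div (rb0.const_add 1) (by norm_num)
      have e9 : ((0 + 0 + 0 * 0 - 0) / (1 + 0) : ℝ) = 0 := by norm_num
      rw [e9] at t3
      exact t3
    rw [par_iff hq]
    -- the identity
    have hMk : ∀ᶠ k : ℕ in atTop, M (2 * k + q) = w (2 * k + q) / c (2 * k + q) :=
      (tendsto_atTop_mono (fun k => by simp only [id]; omega) tendsto_id :
        Tendsto (fun k : ℕ => 2 * k + q) atTop atTop).eventually hM
    have hMk1 : ∀ᶠ k : ℕ in atTop, M (2 * (k + 1) + q) = w (2 * (k + 1) + q) / c (2 * (k + 1) + q) :=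
      (tendsto_atTop_mono (fun k => by simp only [id]; omega) tendsto_id :
        Tendsto (fun k : ℕ => 2 * (k + 1) + q) atTop atTop).eventually hM
    have id1 : ∀ᶠ k : ℕ in atTop, (M (2 * k + q + 2) / M (2 * k + q) - 1) * √(k : ℝ) =
        (a k * √(k : ℝ) + e k * √(k : ℝ) + (a k * √(k : ℝ)) * e k - b k * √(k : ℝ)) / (1 + b k) := by
      filter_upwards [hMk, hMk1] with k m1 m2
      have c0 := C.cpos (2 * k + q)
      have c1 := C.cpos (2 * (k + 1) + q)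
      have w0 := W.cpos (2 * k + q)
      have w1 := W.cpos (2 * (k + 1) + q)
      have q0 := hg (2 * k + q)
      have q1 := hg (2 * (k + 1) + q)
      have u0 := hh (2 * k + q)
      have u1 := hh (2 * (k + 1) + q)
      have v0 := pow_pos hμ (2 * k + q)
      have v1 := pow_pos hμ (2 * (k + 1) + q)
      have hb1 : 1 + b k = c (2 * (k + 1) + q) / μ ^ (2 * (k + 1) + q) /
          h (2 * (k + 1) + q) / (c (2 * k + q) / μ ^ (2 * k + q) / h (2 * k + q)) := by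
        rw [hb]; ring
      have hbpos : 0 < 1 + b k := by rw [hb1]; positivity
      have hue : M (2 * k + q + 2) / M (2 * k + q) = (1 + a k) * (1 + e k) / (1 + b k) := by
        rw [show 2 * k + q + 2 = 2 * (k + 1) + q by ring, m1, m2, hb1]
        have ha1 : 1 + a k = w (2 * (k + 1) + q) / μ ^ (2 * (k + 1) + q) /
            (h (2 * (k + 1) + q) * g (2 * (k + 1) + q)) /
            (w (2 * k + q) / μ ^ (2 * k + q) / (h (2 * k + q) * g (2 * k + q))) := by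
          rw [ha]; ring
        have he1 : 1 + e k = g (2 * (k + 1) + q) / g (2 * k + q) := by rw [he]; ring
        rw [ha1, he1]
        field_simp
      rw [hue, eq_div_iff hbpos.ne']
      field_simp
      ring
    have t5 : Tendsto (fun k : ℕ => (M (2 * k + q + 2) / M (2 * k + q) - 1) * √(k : ℝ)) atTop
        (𝓝 0) := rt.congr' (by filter_upwards [id1] with k hk; exact hk.symm)
    have t6 := t5.abs.const_mul 2
    rw [abs_zero, mul_zero] at t6
    refine squeeze_zero_norm' ?_ t6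
    filter_upwards [eventually_ge_atTop 1] with k hk
    have h5 : √((2 * k + q : ℕ) : ℝ) ≤ 2 * √(k : ℝ) := by
      rw [show (2 : ℝ) * √(k : ℝ) = √(4 * k) by
        rw [Real.sqrt_mul (by norm_num), show (4 : ℝ) = 2 ^ 2 by norm_num,
          Real.sqrt_sq (by norm_num)]]
      refine Real.sqrt_le_sqrt ?_
      exact_mod_cast (show 2 * k + q ≤ 4 * k by omega)
    rw [norm_mul, Real.norm_eq_abs, Real.norm_of_nonneg (Real.sqrt_nonneg _), abs_mul,
      abs_of_nonneg (Real.sqrt_nonneg (k : ℝ))]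
    have h7 := mul_le_mul_of_nonneg_left h5 (abs_nonneg (M (2 * k + q + 2) / M (2 * k + q) - 1))
    linarith

end Pool.Agent.P8H7.DF
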