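import Pool.Agent.P8H98.DF.Stm3
import Pool.Agent.P8H63.DF.Pat
import Pool.Agent.TH966.AK.Conv

/-!
# Project DF: Kesten's inequality for invariant weights
-/

set_option autoImplicit false

namespace Pool.Agent.P8H7.DF

open Finset Filter Topology
open scoped Classical
open Pool.Agent.N929.EG
open Pool.Agent.P8H98.DF

/-- the abstract system of moves -/
noncomputable def sys {α σ : Type} (Y : TS α σ) (c : ℕ)
    (hc : ∀ n w, w ∈ Y.K n → (Y.S w).card ≤ c * (n + 1)) : TH966.AK.Sys α σ where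
  K := Y.K
  S := Y.S
  B := Y.B
  ins := Y.ins
  rem := Y.rem
  s := Y.s
  C := max 1 (max Y.d c)
  n0 := 0
  hC := le_max_left _ _
  ins_K := Y.ins_K
  ins_B := Y.ins_B
  rem_ins := Y.rem_ins
  rem_K := fun n w q _ hw hq => by
    have := Y.rem_K (n + Y.s) w q hw hq
    rwa [Nat.add_sub_cancel] at this
  rem_S := fun n w q _ hw hq => Y.rem_S (n + Y.s) w q hw hq
  ins_rem := fun n w q _ hw hq => Y.ins_rem (n + Y.s) w q hw hq
  chS1 := fun n w q hw hq => (Pool.Agent.P8H63.DF.Pat.chs Y hw hq).1.trans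
    (Nat.add_le_add_left ((le_max_left _ _).trans (le_max_right _ _)) _)
  chS2 := fun n w q hw hq => (Pool.Agent.P8H63.DF.Pat.chs Y hw hq).2.1.trans
    (Nat.add_le_add_left ((le_max_left _ _).trans (le_max_right _ _)) _)
  chB1 := fun n w q hw hq => (Pool.Agent.P8H63.DF.Pat.chs Y hw hq).2.2.1.trans
    (Nat.add_le_add_left ((le_max_left _ _).trans (le_max_right _ _)) _)
  chB2 := fun n w q hw hq => (Pool.Agent.P8H63.DF.Pat.chs Y hw hq).2.2.2.trans
    (Nat.add_le_add_left ((le_max_left _ _).trans (le_max_right _ _)) _)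
  S_le := fun n w hw => (hc n w hw).trans
    (Nat.mul_le_mul_right _ ((le_max_right _ _).trans (le_max_right _ _)))

/-- polynomials are smaller than exponentials -/
lemma poly_exp (m : ℕ) {r : ℝ} (hr0 : 0 < r) (hr1 : r < 1) :
    ∃ B : ℝ, 0 ≤ B ∧ ∀ n : ℕ, ((n : ℝ) + 1) ^ m * r ^ n ≤ B := by
  have h := tendsto_pow_const_mul_const_pow_of_lt_one m hr0.le hr1
  obtain ⟨B, hB⟩ := h.bddAbove_range
  refine ⟨|B| / r, by positivity, fun n => ?_⟩
  have h1 : ((n + 1 : ℕ) : ℝ) ^ m * r ^ (n + 1) ≤ B := hB ⟨n + 1, rfl⟩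
  rw [le_div_iff₀ hr0]
  push_cast at h1
  calc ((n : ℝ) + 1) ^ m * r ^ n * r = ((n : ℝ) + 1) ^ m * r ^ (n + 1) := by rw [pow_succ]; ring
    _ ≤ B := h1
    _ ≤ |B| := le_abs_self B

/-- **KES** -/
theorem kes : S_KES := by
  intro α σ Y μ C₀ m c hμ hP hC₀ hc f hf hinv hlow
  obtain ⟨M, θ, C', hM, hθ0, hθ1, hC', hbad⟩ := hP
  have hμ0 : 0 < μ := by linarith
  obtain ⟨θ', hθ'⟩ : ∃ θ' : ℝ, θ' = (1 + θ) / 2 := ⟨_, rfl⟩
  have t1 : θ < θ' := by rw [hθ']; linarith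
  have t2 : θ' < 1 := by rw [hθ']; linarith
  have t0 : 0 < θ' := by linarith
  obtain ⟨θ₁, hθ₁⟩ : ∃ θ₁ : ℝ, θ₁ = (1 + θ') / 2 := ⟨_, rfl⟩
  have t3 : θ' < θ₁ := by rw [hθ₁]; linarith
  have t4 : θ₁ < 1 := by rw [hθ₁]; linarith
  obtain ⟨B, hB0, hB⟩ := poly_exp m (r := θ / θ') (by positivity) ((div_lt_one t0).2 t1)
  have h := (sys Y c hc).convexW M hM μ θ' θ₁ (C' * C₀ * B) hμ0 t0 t3
  refine ⟨8 * (6 * (max 1 (max Y.d c) : ℕ) * M + 1), by positivity, ?_⟩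
  filter_upwards [h] with n hn
  refine hn f ⟨fun n w hw => (hf n w hw).1, hinv⟩ (fun n => ?_) ?_
  · have e : (sys Y c hc).badf f M n = ∑ w ∈ bad Y M n, f w := rfl
    rw [e]
    have h1 : ∑ w ∈ bad Y M n, f w ≤ ((bad Y M n).card : ℝ) * (C₀ * ((n : ℝ) + 1) ^ m) := by
      rw [← nsmul_eq_mul]
      refine Finset.sum_le_card_nsmul _ _ _ fun w hw => ?_
      unfold bad at hw
      exact (hf n w (mem_filter.1 hw).1).2
    refine h1.trans ?_
    have h2 : ((bad Y M n).card : ℝ) * (C₀ * ((n : ℝ) + 1) ^ m) ≤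
        C' * (θ * μ) ^ n * (C₀ * ((n : ℝ) + 1) ^ m) :=
      mul_le_mul_of_nonneg_right (hbad n) (by positivity)
    refine h2.trans ?_
    have e2 : (θ * μ) ^ n = (θ / θ') ^ n * (θ' * μ) ^ n := by
      rw [← mul_pow]
      congr 1
      field_simp
    rw [e2]
    calc C' * ((θ / θ') ^ n * (θ' * μ) ^ n) * (C₀ * ((n : ℝ) + 1) ^ m)
        = C' * C₀ * (((n : ℝ) + 1) ^ m * (θ / θ') ^ n) * (θ' * μ) ^ n := by ring
      _ ≤ C' * C₀ * B * (θ' * μ) ^ n := by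
          have := hB n
          gcongr
  · have e : (sys Y c hc).af f (n + (sys Y c hc).s) = ∑ w ∈ Y.K (n + Y.s), f w := rfl
    rw [e]
    refine le_trans ?_ (hlow (n + Y.s))
    apply pow_le_pow_left₀ (mul_nonneg (by linarith) hμ0.le)
    exact mul_le_of_le_one_left hμ0.le t4.le

end Pool.Agent.P8H7.DF
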